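import Mathlib

namespace Pool.Agent.Results.MP_04e67f_nt.Inf

open ArithmeticFunction

noncomputable def h (n : ℕ) : ℝ := (sigma 1 n : ℝ) / n

noncomputable def H (n : ℕ) : ℝ := ∏ p ∈ n.primeFactors, (p : ℝ) / (p - 1)

noncomputable def g (n : ℕ) : ℝ := (H n - 2) * √n

def ND (n : ℕ) : Prop := Odd n ∧ 2 * n ≤ sigma 1 n

def B (n : ℕ) : Prop := ND n ∧ ∀ k < n, ND k → g k < g n

noncomputable def b (j : ℕ) : ℕ := Nat.nth B j

lemma fac (p : ℕ) (hp : p.Prime) : 1 + (1 : ℝ) / p ≤ p / (p - 1) := by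
  have : (2 : ℝ) ≤ p := by exact_mod_cast hp.two_le
  rw [le_div_iff₀ (by linarith)]
  field_simp; nlinarith

lemma one_le (p : ℕ) (hp : p.Prime) : (1 : ℝ) ≤ p / (p - 1) :=
  le_trans (by simp) (fac p hp)

lemma H_le (n : ℕ) (hn : n ≠ 0) : H n ≤ h n ^ 2 := by
  induction n using Nat.recOnPosPrimePosCoprime with
  | zero => simp at hn
  | one => simp [H, h]
  | prime_pow p k hp hk =>
    obtain ⟨k, rfl⟩ : ∃ j, k = j + 1 := ⟨k - 1, by omega⟩
    have h2 : (2 : ℝ) ≤ p := by exact_mod_cast hp.two_le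
    have h1 : 1 + (1 : ℝ) / p ≤ h (p ^ (k + 1)) := by
      rw [h, sigma_one_apply_prime_pow hp, Finset.sum_range_succ, Finset.sum_range_succ,
        le_div_iff₀ (by positivity)]
      push_cast
      have : (0 : ℝ) ≤ ∑ i ∈ Finset.range k, (p : ℝ) ^ i := by positivity
      have e : (1 + (1 : ℝ) / p) * p ^ (k + 1) = p ^ k + p ^ (k + 1) := by field_simp; ring
      linarith
    rw [H, Nat.primeFactors_prime_pow (by omega) hp, Finset.prod_singleton]
    refine le_trans ?_ (pow_le_pow_left₀ (by positivity) h1 2)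
    rw [div_le_iff₀ (by linarith)]
    field_simp; nlinarith
  | coprime a c ha hc hac iha ihc =>
    have e1 : H (a * c) = H a * H c := by
      rw [H, hac.primeFactors_mul, Finset.prod_union hac.disjoint_primeFactors]; rfl
    have e2 : h (a * c) = h a * h c := by
      rw [h, isMultiplicative_sigma.map_mul_of_coprime hac, h, h]; push_cast; ring
    rw [e1, e2, mul_pow]
    exact mul_le_mul (iha (by omega)) (ihc (by omega))
      (Finset.prod_nonneg fun p hp => zero_le_one.trans (one_le p (Nat.prime_of_mem_primeFactors hp)))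
      (by positivity)

lemma H_mono (a n : ℕ) (hn : n ≠ 0) (hd : a ∣ n) : H a ≤ H n :=
  Finset.prod_le_prod_of_subset_of_one_le (Nat.primeFactors_mono hd hn)
    (fun p hp => zero_le_one.trans (one_le p (Nat.prime_of_mem_primeFactors hp)))
    fun p hp _ => one_le p (Nat.prime_of_mem_primeFactors hp)

lemma sum_le (t : Finset ℕ) : 1 + ∑ p ∈ t, (1 : ℝ) / p ≤ ∏ p ∈ t, (1 + (1 : ℝ) / p) := by
  induction t using Finset.induction_on with
  | empty => simp
  | insert a t ha ih =>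
    rw [Finset.sum_insert ha, Finset.prod_insert ha]
    have h1 : (0 : ℝ) ≤ 1 / a := by positivity
    have h2 : (0 : ℝ) ≤ ∑ p ∈ t, (1 : ℝ) / p := by positivity
    nlinarith

lemma H_big (M : ℝ) : ∃ N, Odd N ∧ M ≤ H N := by
  by_contra hc
  push Not at hc
  refine Nat.Primes.not_summable_one_div (summable_of_sum_le (c := M + 1) (fun p => by positivity)
    fun s => ?_)
  set t := (s.image (fun p : Nat.Primes => (p : ℕ))).erase 2 with ht
  have hp : ∀ p ∈ t, p.Prime ∧ p ≠ 2 := fun p hp => by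
    obtain ⟨h1, h2⟩ := Finset.mem_erase.1 hp
    obtain ⟨q, -, rfl⟩ := Finset.mem_image.1 h2
    exact ⟨q.2, h1⟩
  have h1 := hc (∏ p ∈ t, p) (Finset.prod_induction _ Odd (fun _ _ => Odd.mul) odd_one
    fun p h => (hp p h).1.odd_of_ne_two (hp p h).2)
  rw [H, Nat.primeFactors_prod fun p h => (hp p h).1] at h1
  have h2 : 1 + ∑ p ∈ t, (1 : ℝ) / p ≤ ∏ p ∈ t, (p : ℝ) / (p - 1) :=
    (sum_le t).trans
      (Finset.prod_le_prod (fun p _ => by positivity) fun p h => fac p (hp p h).1)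
  have h3 : ∑ p ∈ s, (1 : ℝ) / (p : ℕ) = ∑ p ∈ s.image (fun p : Nat.Primes => (p : ℕ)), (1 : ℝ) / p :=
    (Finset.sum_image (f := fun p : ℕ => (1 : ℝ) / p) fun _ _ _ _ h => Subtype.ext h).symm
  have h4 : ∑ p ∈ s.image (fun p : Nat.Primes => (p : ℕ)), (1 : ℝ) / p ≤
      ∑ p ∈ insert 2 t, (1 : ℝ) / p :=
    Finset.sum_le_sum_of_subset_of_nonneg (Finset.subset_insert_iff.2 le_rfl)
      fun _ _ _ => by positivity
  rw [Finset.sum_insert (by simp [ht])] at h4
  rw [h3]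
  norm_num only [Nat.cast_ofNat] at h4
  linarith

lemma nd (n : ℕ) (hn : Odd n) (h4 : 4 ≤ H n) : ND n := by
  have h0 : (0 : ℝ) < n := by exact_mod_cast hn.pos
  have h1 := H_le n hn.pos.ne'
  have h2 : 2 ≤ h n := by
    have : 0 ≤ h n := by unfold h; positivity
    nlinarith
  rw [h, le_div_iff₀ h0] at h2
  exact ⟨hn, by exact_mod_cast h2⟩

lemma B_inf : {n | B n}.Infinite := by
  classical
  refine Set.infinite_of_forall_exists_gt fun T => ?_
  obtain ⟨M, hM⟩ := (Set.finite_le_nat T).image g |>.bddAbove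
  obtain ⟨N, h1, h2⟩ := H_big (|M| + 4)
  have h3 : ∃ n, ND n ∧ M < g n := by
    refine ⟨N, nd N h1 (by linarith [abs_nonneg M]), ?_⟩
    have : (1 : ℝ) ≤ √N := Real.one_le_sqrt.2 (by exact_mod_cast h1.pos)
    unfold g
    nlinarith [le_abs_self M, abs_nonneg M]
  obtain ⟨h4, h5⟩ := Nat.find_spec h3
  refine ⟨Nat.find h3, ⟨h4, fun k hk hk' => ?_⟩, ?_⟩
  · have := Nat.find_min h3 hk
    simp only [not_and, not_lt] at this
    exact (this hk').trans_lt h5
  · by_contra hc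
    exact absurd (hM ⟨_, not_lt.1 hc, rfl⟩) (not_le.2 h5)

lemma H_B (M : ℝ) : ∃ T, ∀ n, T ≤ n → B n → M ≤ H n := by
  obtain ⟨N, h1, h2⟩ := H_big (2 * |M| + 4)
  refine ⟨4 * N, fun n hn hB => ?_⟩
  have hN := h1.pos
  obtain ⟨k, hk1, hk2, hk3, hk4⟩ : ∃ k, Odd k ∧ N ∣ k ∧ k < n ∧ n ≤ 4 * k := by
    have a := Nat.div_add_mod n (2 * N)
    have c := Nat.mod_lt n (show 0 < 2 * N by omega)
    obtain ⟨q, hq⟩ : ∃ q, n / (2 * N) = q + 2 :=
      ⟨n / (2 * N) - 2, by have := (Nat.le_div_iff_mul_le (show 0 < 2 * N by omega)).2 (show 2 * (2 * N) ≤ n by omega); omega⟩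
    rw [hq] at a
    have e : 2 * N * (q + 2) = N * (2 * q + 3) + N := by ring
    have e2 : N * (2 * q + 3) = 2 * (N * q) + 3 * N := by ring
    exact ⟨N * (2 * q + 3), h1.mul ⟨q + 1, by ring⟩, Dvd.intro _ rfl, by omega, by omega⟩
  have h3 := h2.trans (H_mono N k hk1.pos.ne' hk2)
  have h4 := hB.2 k hk3 (nd k hk1 (by linarith [abs_nonneg M]))
  have h5 : √(n : ℝ) ≤ 2 * √k := by
    rw [show (2 : ℝ) * √k = √(4 * k) by
      rw [Real.sqrt_mul (by norm_num), show (4 : ℝ) = 2 ^ 2 by norm_num, Real.sqrt_sq (by norm_num)]]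
    exact Real.sqrt_le_sqrt (by exact_mod_cast hk4)
  have h6 : 0 < √(n : ℝ) := Real.sqrt_pos.2 (by exact_mod_cast (show 0 < n by omega))
  unfold g at h4
  by_contra hc
  push Not at hc
  have h7 : 0 ≤ √(k : ℝ) := Real.sqrt_nonneg _
  nlinarith [le_abs_self M, abs_nonneg M]

theorem result : {n | B n}.Infinite ∧ {j | h (b j) < h (b (j + 1))}.Infinite := by
  refine ⟨B_inf, Set.infinite_of_forall_exists_gt fun J => ?_⟩
  by_contra hc
  push Not at hc
  have h1 : ∀ i, h (b (J + 1 + i)) ≤ h (b (J + 1)) := by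
    intro i
    induction i with
    | zero => exact le_rfl
    | succ i ih =>
      refine le_trans (not_lt.1 fun h2 => ?_) ih
      have := hc (J + 1 + i) h2
      omega
  obtain ⟨T, hT⟩ := H_B (h (b (J + 1)) ^ 2 + 1)
  have h2 := Nat.nth_mem_of_infinite B_inf (J + 1 + T)
  have h3 := hT _ (le_trans (by omega) (Nat.le_nth fun hf => absurd hf B_inf)) h2
  have h4 := H_le _ h2.1.1.pos.ne'
  have h5 := pow_le_pow_left₀ (by unfold h; positivity) (h1 T) 2
  unfold b at *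
  linarith

end Pool.Agent.Results.MP_04e67f_nt.Inf
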